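import Pool.Agent.helper75.LC.Spec

/-!
Row lc:NA1. A maximal subgroup with property `PA p` contains every minimal normal subgroup that is not commutative.
-/

set_option autoImplicit false

namespace Pool.Agent.LC

open MX MG

open scoped MatrixGroups

theorem NA1_comm {G : Type} [Group G] {N N' : Subgroup G} (hN : N.Normal) (hN' : N'.Normal)
    (h : N ⊓ N' = ⊥) : ∀ x ∈ N, ∀ n ∈ N', x * n = n * x := by
  intro x hx n hn
  have h1 : x * n * x⁻¹ * n⁻¹ ∈ N ⊓ N' := by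
    refine ⟨?_, ?_⟩
    · have h2 := N.mul_mem hx (hN.conj_mem x⁻¹ (N.inv_mem hx) n)
      have h3 : x * (n * x⁻¹ * n⁻¹) = x * n * x⁻¹ * n⁻¹ := by group
      rwa [h3] at h2
    · exact N'.mul_mem (hN'.conj_mem n hn x) (N'.inv_mem hn)
  rw [h] at h1
  have h2 : x * n * x⁻¹ = n := mul_inv_eq_one.1 (Subgroup.mem_bot.1 h1)
  exact mul_inv_eq_iff_eq_mul.1 h2

theorem NA1 : NA1_stmt := by
  intro G _ _ N hN hnc p M hM hPA
  obtain ⟨N', hN'n, hN'M, hcom, -⟩ := hPA
  obtain ⟨hNn, -, hmin⟩ := hN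
  haveI := hN'n
  haveI := hNn
  by_contra hNM
  rcases hmin (N ⊓ N') inferInstance inf_le_left with h | h
  · have hc := NA1_comm hNn hN'n h
    have htop : N' ⊔ M = ⊤ := by
      apply hM.2
      refine lt_of_le_of_ne le_sup_right ?_
      intro he
      exact hN'M (he ▸ le_sup_left)
    have hdec : ∀ g : G, ∃ n ∈ N', ∃ m ∈ M, n * m = g := by
      intro g
      have hg : g ∈ N' ⊔ M := by rw [htop]; exact Subgroup.mem_top g
      rw [← SetLike.mem_coe, Subgroup.normal_mul] at hg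
      obtain ⟨n, hn, m, hm, he⟩ := Set.mem_mul.1 hg
      exact ⟨n, hn, m, hm, he⟩
    have hnorm : (N ⊓ M).Normal := by
      refine ⟨?_⟩
      rintro x ⟨hxN, hxM⟩ g
      refine ⟨hNn.conj_mem x hxN g, ?_⟩
      obtain ⟨n, hn, m, hm, rfl⟩ := hdec g
      have hy : m * x * m⁻¹ ∈ N := hNn.conj_mem x hxN m
      have hyM : m * x * m⁻¹ ∈ M := M.mul_mem (M.mul_mem hm hxM) (M.inv_mem hm)
      have h2 : n * m * x * (n * m)⁻¹ = m * x * m⁻¹ := by
        have h3 : n * m * x * (n * m)⁻¹ = n * (m * x * m⁻¹) * n⁻¹ := by group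
        rw [h3, ← hc _ hy n hn]
        group
      rw [h2]
      exact hyM
    rcases hmin (N ⊓ M) hnorm inf_le_left with h1 | h1
    · obtain ⟨a, ha, b, hb, hab⟩ := hnc
      apply hab
      obtain ⟨n, hn, m, hm, hx⟩ := hdec a
      obtain ⟨n', hn', m', hm', hx'⟩ := hdec b
      have e1 : a * n = n * a := hc a ha n hn
      have e2 : a * n' = n' * a := hc a ha n' hn'
      have e3 : b * n = n * b := hc b hb n hn
      have e4 : b * n' = n' * b := hc b hb n' hn'
      have hm1 : m = n⁻¹ * a := by rw [← hx]; group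
      have hm2 : m' = n'⁻¹ * b := by rw [← hx']; group
      have key : a * b * a⁻¹ * b⁻¹ = (n⁻¹ * n'⁻¹ * n⁻¹⁻¹ * n'⁻¹⁻¹)⁻¹ * (m * m' * m⁻¹ * m'⁻¹) := by
        have c1 : Commute a n := e1
        have c2 : Commute a n' := e2
        have c3 : Commute b n := e3
        have c4 : Commute b n' := e4
        have s1 : m * m' * m⁻¹ * m'⁻¹ = n⁻¹ * (a * n'⁻¹) * (b * a⁻¹) * n * b⁻¹ * n' := by
          rw [hm1, hm2]; group
        have s2 : a * n'⁻¹ = n'⁻¹ * a := (c2.inv_right).eq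
        have s3 : b * a⁻¹ * n = n * (b * a⁻¹) := by
          have : Commute (b * a⁻¹) n := c3.mul_left c1.inv_left
          exact this.eq
        have s4 : b⁻¹ * n' = n' * b⁻¹ := (c4.inv_left).eq
        have s5 : a * n = n * a := e1
        have s6 : Commute (a * b * a⁻¹) n' := (c2.mul_left c4).mul_left c2.inv_left
        have s7 : Commute (a * b * a⁻¹) n := (c1.mul_left c3).mul_left c1.inv_left
        have s8 : m * m' * m⁻¹ * m'⁻¹ = n⁻¹ * n'⁻¹ * (n * n') * (a * b * a⁻¹ * b⁻¹) := by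
          have t1 : n⁻¹ * (a * n'⁻¹) * (b * a⁻¹) * n * b⁻¹ * n' =
              n⁻¹ * n'⁻¹ * ((a * b * a⁻¹) * n) * (b⁻¹ * n') := by
            rw [s2]; group
          rw [s1, t1, s4, s7.eq]
          have t2 : n⁻¹ * n'⁻¹ * (n * (a * b * a⁻¹)) * (n' * b⁻¹) =
              n⁻¹ * n'⁻¹ * n * ((a * b * a⁻¹) * n') * b⁻¹ := by group
          rw [t2, s6.eq]
          group
        rw [s8]
        group
      have hM1 : a * b * a⁻¹ * b⁻¹ ∈ M := by
        rw [key]
        refine M.mul_mem (M.inv_mem (hcom _ (N'.inv_mem hn) _ (N'.inv_mem hn'))) ?_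
        exact M.mul_mem (M.mul_mem (M.mul_mem hm hm') (M.inv_mem hm)) (M.inv_mem hm')
      have hN1 : a * b * a⁻¹ * b⁻¹ ∈ N :=
        N.mul_mem (N.mul_mem (N.mul_mem ha hb) (N.inv_mem ha)) (N.inv_mem hb)
      have hbot : a * b * a⁻¹ * b⁻¹ ∈ N ⊓ M := ⟨hN1, hM1⟩
      rw [h1] at hbot
      have h2 : a * b * a⁻¹ = b := mul_inv_eq_one.1 (Subgroup.mem_bot.1 hbot)
      exact mul_inv_eq_iff_eq_mul.1 h2
    · exact hNM (inf_eq_left.1 h1)
  · have hle : N ≤ N' := inf_eq_left.1 h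
    have hcm : ⁅N, N⁆ ≤ M := by
      rw [Subgroup.commutator_le]
      intro a ha b hb
      exact hcom a (hle ha) b (hle hb)
    rcases hmin ⁅N, N⁆ inferInstance (Subgroup.commutator_le_left N N) with h1 | h1
    · obtain ⟨a, ha, b, hb, hab⟩ := hnc
      apply hab
      have h2 : a * b * a⁻¹ * b⁻¹ ∈ ⁅N, N⁆ := Subgroup.commutator_mem_commutator ha hb
      rw [h1] at h2
      have h3 : a * b * a⁻¹ * b⁻¹ = 1 := Subgroup.mem_bot.1 h2
      exact mul_inv_eq_iff_eq_mul.1 (mul_inv_eq_one.1 h3)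
    · exact hNM (h1 ▸ hcm)

end Pool.Agent.LC
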